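import Pool.Agent.R370.TZ.S

/-!
# Orbits of points which are generic over the algebraic numbers

Let `X` be (the cone over) a Shimura variety over `K = ℂ`, defined with all its special subvarieties
over `k`, the algebraic numbers, and let `P` be the set of the points in `Σ (M, X_M, x)`. For every
point `s` of `P` the adjoint Mumford-Tate datum of `s` is a quotient of the adjoint datum of `M`, in
such a way that `s` is the image of `x`; hence

`dim hull s - (transcendence degree of s over k) ≤ c := dim X_M - (transcendence degree of x over k)`,

that is, the closure of `s` over `k` has defect at most `c`. Moreover `P` contains the orbit of `s`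
under the rational points of its Mumford-Tate group, which is dense in `hull s`. So the hypotheses
on `P` in the theorem below are satisfied, with `c = 0` if `x` is generic over `k`. The property
`AndreOort` is the theorem of Pila, Shankar and Tsimerman (and the density of the special points in
special subvarieties).

Let `V` be a subvariety over `K`, and consider the Zariski closure of `V ∩ P`.

* If `c = 0` and `V` is defined over `k`, it is the union of finitely many special subvarieties: Q1 is
  true for all `V` over the algebraic numbers and all `x` generic over the algebraic numbers.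
* If `c = 0` and `V` is defined over `K`, it is the union of finitely many subvarieties `C` whose
  closure over `k` is special, so that the codimension of `C` in its closure over `k` is equal to the
  defect of `C`.
* For every `c`: if `P` is dense in the subvariety `Z` over `K`, then the subvarieties `B` over `k`, of
  defect at most `c` and dimension at least `gap Z` are dense in the closure of `Z` over `k`.
-/

namespace Pool.Agent.Results.MP_7e5527_ag.GenericPoints

open Pool.Agent.R948.ZP Pool.Agent.R370.TZ

/-- Q1 for points which are generic over `k` and subvarieties over `k`, and its reduction for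
subvarieties over `K`. -/
theorem result {k K : Type} [Field k] [Field K] [Algebra k K] [IsAlgClosed k] [IsAlgClosed K]
    {ι : Type} [Fintype ι] {X : Set (ι → K)} (hX : QuasiProjective X) {𝒮 : Set (Set (ι → K))}
    (h𝒮 : SpecialStructure X 𝒮) (hd : ∀ S ∈ 𝒮, Def k S) {P : Set (ι → K)} (hPc : IsCone P) {c : ℤ}
    (hP : ∀ x ∈ P, defect 𝒮 (clo k X (line x)) ≤ c) {T : Set (ι → K)} (hT : T ∈ 𝒮) :
    (c = 0 → AndreOort X 𝒮 → ∀ V, Subvariety X V → V ⊆ T →
      {C | IsComponent X C (zcl X (V ∩ P))}.Finite ∧
      ⋃₀ {C | IsComponent X C (zcl X (V ∩ P))} = zcl X (V ∩ P) ∧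
      (∀ C, IsComponent X C (zcl X (V ∩ P)) →
        C ⊆ V ∧ clo k X C ∈ 𝒮 ∧ gap k X C = defect 𝒮 C) ∧
      (Def k V → (∀ x ∈ P, Dense X (hull 𝒮 (line x)) P) →
        ∀ C, IsComponent X C (zcl X (V ∩ P)) → C ∈ 𝒮)) ∧
    ∀ Z, Subvariety X Z → Z ⊆ T → Dense X Z P →
      Dense X (clo k X Z)
        (⋃₀ {B | Subvariety X B ∧ B ⊆ clo k X Z ∧ Def k B ∧ gap k X Z ≤ dim B ∧
          defect 𝒮 B ≤ c}) := by
  refine ⟨?_, fun Z hZ hZT hdense => ?_⟩
  · rintro rfl hAO V hV hVT
    exact orbit_components (k := k) hX h𝒮 hd hAO hPc hP hT hV hVT
  · rw [dense_sUnion fun B hB => hB.2.1]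
    exact fun W hW hB => orbit_points (k := k) hX h𝒮 hd hP hT hZ hZT hdense hW
      fun B h1 h2 h3 h4 h5 => hB B ⟨h1, h2, h3, h4, h5⟩

end Pool.Agent.Results.MP_7e5527_ag.GenericPoints
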