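import Pool.Agent.R349.Iso

/-!
# Homomorphisms between the fibres of a family and an arbitrary fixed complex abelian variety: small balls

For the Shimura variety `A_g` the orbit of a Hodge generic point is the set of the points whose abelian varieties are
isogenous to a fixed one, `B`. Let `F` be a family of abelian varieties over an open subset of the complex points of a
variety over the algebraic numbers, for instance on a subvariety of `A_g`, with symplectic monodromy (for example the
products of hyperelliptic curves). We show that in each ball of radius `T ^ (-η)`, for every `η > 0`, the points `t` of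
height at most `T` for which there is a nonzero homomorphism, of complexity at most `T ^ k`, between `B` and a component of
the fibre at `t` lie on a number of hypersurfaces, of a degree, which do not depend on `T`, the ball, the number field and
`B`, which is an arbitrary complex abelian variety, or motive; only its dimension matters. More: for every form the periods
along the cycles of the fibre are linearly independent over the number field modulo the span of any `k` given complex
numbers, up to the height `T ^ k`.

The definitions (`Pool.Agent.Y890.SM`, `Pool.Agent.Y890.MV`, `Pool.Agent.Y124`, `Pool.Agent.Y120`, `Pool.Agent.R349.PC`,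
`Pool.Agent.R349.Iso`):
* `SympFam X n` : the families; `F.P i x` the matrices of periods (rows: cycles, columns: forms), `F.Q i` and `F.J i` the
  polarizations;
* `Bd k T z` : all conjugates of the integer `z` of `K` are at most `T ^ k`;
* `HasHom F k K io T Ω x` : there are matrices `M ≠ 0` and `α` over the integers of `K`, with conjugates at most `T ^ k`, and
  an `i`, such that `M * F.P i x = Ω * α`. If `Ω` is a matrix of periods of `B`, a homomorphism `B → A_x`, with the matrix
  `M / q` on the homology and `α / q` on the de Rham cohomology, `q` a common denominator, satisfies this;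
* `Indep F k K io T v x` : for all `i`, all forms `j`, all integers `m a` and `α b` of `K` with conjugates at most `T ^ k`:
  if `∑ a, m a * F.P i x a j = ∑ b, v b * α b` then `m = 0`;
* `InnerM U k` : the points of norm at most `k` at distance at least `1 / k` from the complement of `U`;
* `Cov D m S` : `S` is covered by at most `m` hypersurfaces of degree at most `D`;
* `Y890.HE.Conf n`, `Y890.HE.pm n e` : the branch points `e i r`, `r ≤ n i`, with increasing real parts, and the matrices
  of the periods of `x ^ j dx / y` on `y² = ∏ (x - e i r)`.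
-/

set_option autoImplicit false

namespace Pool.Agent.Results.MP_7e5527_ag.IsogeniesInSmallBalls

open Pool.Agent Pool.Agent.Y890.MV Pool.Agent.Y890.SM Pool.Agent.R349.PC Pool.Agent.R349.Iso

/-- the points over `K` of height at most `T`, at distance at most `T ^ (-η)` from `t₀`, for which the fibre has a nonzero
homomorphism, of complexity at most `T ^ k`, to the structure with the periods `Ω`, or the periods of a form are dependent
over `K` modulo the span of the numbers `v`, with coefficients of height at most `T ^ k` -/
def Bad {X : Type} [Fintype X] {ι : Type} {n : ι → ℕ} (F : SympFam X n) (k : ℕ) (η : ℝ) (K : Type) [Field K]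
    [NumberField K] (io : K →+* ℂ) (Ω : Matrix (Fin k) (Fin k) ℂ) (v : Fin k → ℂ) (T : ℝ) (t₀ : X → ℂ) :
    Set (X → ℂ) :=
  {t | ‖t - t₀‖ ≤ T ^ (-η) ∧ ∃ e : X → K, (∀ j, Y120.HtLe K T (e j)) ∧ (t = fun j => io (e j)) ∧ t ∈ InnerM F.U k ∧
    (HasHom F k K io T Ω t ∨ ¬ Indep F k K io T v t)}

/-- (1) Let `F` be a family with symplectic monodromy over an open subset of `ℂ ^ X`. For all `k` and `η > 0` there are
`C` and `T₀` such that for all number fields `K` of degree at most `k`, embedded in `ℂ`, all complex `k × k`-matrices `Ω`,
all complex numbers `v 1, …, v k`, all `T ≥ T₀` and all points `t₀` of `ℂ ^ X`: the bad points lie on at most `C`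
hypersurfaces of degree at most `C`; hence for all finite subsets `B j` of `K` at most `C ∑_j ∏_{i ≠ j} |B i|` of them have
coordinates in the sets `B j`, and at most `C` if there is one parameter.
(2) The period matrices of all products of hyperelliptic curves `y² = ∏ (x - e i r)`, `r ≤ n i`, `n i` even, are such a
family. -/
theorem result :
    (∀ (X : Type) [Fintype X] [DecidableEq X] [Nonempty X] (ι : Type) [Fintype ι] [DecidableEq ι] (n : ι → ℕ)
      (F : SympFam X n) (k : ℕ) (η : ℝ), 0 < η → ∃ (C : ℕ) (T₀ : ℝ), ∀ (K : Type) [Field K] [NumberField K],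
        Module.finrank ℚ K ≤ k → ∀ (io : K →+* ℂ) (Ω : Matrix (Fin k) (Fin k) ℂ) (v : Fin k → ℂ) (T : ℝ), T₀ ≤ T →
        ∀ t₀ : X → ℂ,
          Y124.Cov C C (Bad F k η K io Ω v T t₀) ∧
          ∀ (B : X → Finset K) (E : Finset (X → K)),
            (∀ e ∈ E, (∀ j, e j ∈ B j) ∧ (fun j => io (e j)) ∈ Bad F k η K io Ω v T t₀) →
            E.card ≤ C * ∑ j, ∏ i ∈ Finset.univ.erase j, (B i).card) ∧
    ∀ (ι : Type) [Fintype ι] [DecidableEq ι] (n : ι → ℕ), (∀ i, Even (n i)) →
      ∃ F : SympFam (Σ i, Fin (n i + 1)) n, F.U = Y890.HE.Conf n ∧ (∀ i, F.w i = 1) ∧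
        ∀ i e, F.P i e = Y890.HE.pm n e i := by
  refine ⟨fun X _ _ _ ι _ _ n F k η hη => ?_, fun _ _ _ n hn => ⟨hyp n hn, rfl, fun _ => rfl, fun _ _ => rfl⟩⟩
  obtain ⟨C₁, T₁, H₁⟩ := ballHom F k η hη
  obtain ⟨C₂, T₂, H₂⟩ := ballIndep F k η hη
  refine ⟨(C₁ + C₂) + (C₁ + C₂) * (C₁ + C₂), max T₁ T₂, fun K _ _ hK io Ω v T hT t₀ => ?_⟩
  have h1 := (H₁ K hK io Ω T ((le_max_left _ _).trans hT) t₀).mono (D' := C₁ + C₂) (m' := C₁) (by omega) le_rfl
    (Set.Subset.refl _)
  have h2 := (H₂ K hK io v T ((le_max_right _ _).trans hT) t₀).mono (D' := C₁ + C₂) (m' := C₂) (by omega) le_rfl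
    (Set.Subset.refl _)
  have h3 : Y124.Cov (C₁ + C₂) (C₁ + C₂) (Bad F k η K io Ω v T t₀) := by
    refine (h1.union h2).mono le_rfl le_rfl ?_
    rintro t ⟨ha, e, hb, hc, hd, hh | hi⟩
    · exact Or.inl ⟨ha, e, hb, hc, hd, hh⟩
    · exact Or.inr ⟨ha, e, hb, hc, hd, hi⟩
  refine ⟨h3.mono (by omega) (by omega) (Set.Subset.refl _), fun B E hE => ?_⟩
  refine (R349.MVB.cov_prod io B _ h3 E fun e he => ?_).trans (Nat.mul_le_mul_right _ (by omega))
  exact hE e he

end Pool.Agent.Results.MP_7e5527_ag.IsogeniesInSmallBalls
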