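import Pool.Agent.R424.MP.Orb

/-!
# MP_7e5527_ag: points of adjoint-isomorphism orbits on almost all members of families of
subvarieties of `Y(1)^n`

**The orbits in `Y(1)^n`.** Let `Γ \ X⁺ = Y(1)^n`, with the coordinates `j(w_1), …, j(w_n)`, let
`(M, X_M)` be any Shimura datum and `x ∈ X_M` Hodge generic. Let `τ_1, …, τ_b ∈ ℍ` be the components of
`x^ad` in the simple factors of `M^ad` which are isomorphic to `PGL_2` over `ℚ`. The group `M_{x'}^ad` of a
point `x' = (w_1, …, w_n)` is a product of groups `PGL_2`, one for each isogeny class of the `w_i` which
are not special. So the image of `Σ_X(M, X_M, x)` in `Y(1)^n` is the set of the points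
`(j(w_1), …, j(w_n))` such that every `w_i` is special or isogenous to one of the `τ_c` (this argument is
not in Lean). The set `orbit Γ τ` below consists of the points `(j(w_1), …, j(w_n))` such that every
`w_i` is special, or isogenous to one of the `τ_c`, or isogenous to a point `z` whose invariant `j(z)` is
integral over `ℤ[Γ]`, where `Γ` is a finite set of complex numbers. So for `b = 0` and
`Γ = {j(τ_1), …, j(τ_b)}` it contains the orbit of a fixed `x`, algebraic or not.

**Families.** Let `F` be a finite system of polynomials in the coordinates of `Y(1)^n × Y(1)^b = ℂ^(n+b)`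
and `N` auxiliary coordinates, with the exponents `supp q` and the coefficients `c q β`, which are
polynomials in `t = (t_0; t_1, …, t_s)` with integral coefficients. The member at `t ∈ ℤ^(1+s)` is the set
of the points `(x, j) ∈ ℂ^(n+b)` for which there is a `y ∈ ℂ^N` such that all polynomials of the system,
with the coefficients evaluated at `t`, vanish at `(x, j, y)` (`solO`). For `b = 0` this is a family of
subvarieties `V_t` of `Y(1)^n`; for `b > 0` the points `τ_c` may vary too: by equations
`j_c = f_c(t)`, or arbitrary algebraic equations between `t`, `x` and the `j_c`.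

**Tropicalizations at hypersurfaces** (`HasOrd`, `CoprimeTo`, `TropAt`) are defined as in our files
`ManyParameters` for the problems `MP_c95b3b_ag` and `MP_e573c6_ag`.

**The condition** (`GenericO`). The type of a point of an orbit is given by the class `c` of each
coordinate which is isogenous to `τ_c`, the other coordinates being without class, and the degrees
`d_i > 0`. A point `w` is compatible with it (`CompatibleO`) if the coordinates without class are not
negative, and for a coordinate `i` of class `c` the numbers `w_i` and `w_{n+c}` are both not negative, or
both negative with `d_i w_i w_{n+c}` a square. The condition: for every type there is an `l` such that no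
point of the tropicalization along `h_l` is compatible. For `b = 0` there is only one type and the
condition is: for some `l` every point of the tropicalization along `h_l` has a negative coordinate
`w_i`, `i ≤ n`.

**Theorem.** Suppose that the condition is satisfied, and let `Γ` be a finite set of complex numbers
and `ε > 0`. Then for all but at most `C · B ^ (s + ε)` of the about `(2 B)^(1 + s)` integral parameters `t`
with all `|t_i| ≤ B` there are no `τ ∈ ℍ^b` and `x ∈ orbit Γ τ` such that `(x, j(τ))` is in the member at `t`.
So `Σ(M, X_M, x) ∩ V_t` is empty for almost all `t`, for all Shimura data `(M, X_M)` and all Hodge generic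
`x` (the constant `C` depends on `x`, or `x` may depend on `t`), and `Q1` is true, with `k = 0`, in these
cases.

Relation: for fixed `V ⊆ Y(1)^n` and fixed `x` the finiteness of the number of maximal weakly special
subvarieties as in the problem is the modular Mordell-Lang theorem (Habegger, Pila: Some unlikely
intersections beyond André-Oort, and Pila: Special point problems with elliptic modular surfaces). The
theorem here says that for almost all members of families there are no such subvarieties at all, with a
bound for the number of the exceptions and also if the point `x` varies with `t`.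
-/

set_option autoImplicit false

namespace Pool.Agent.Results.MP_7e5527_ag.OrbitsInFamilies

open UpperHalfPlane H294ZP Pool.Agent.R424.MP

/-- **Orbit points on almost all members** of families of subvarieties of `Y(1)^n` with several integral
parameters. -/
theorem result (κ : Type) [Finite κ] (s n b N M : ℕ)
    (supp : κ → Finset (((Fin n ⊕ Fin b) ⊕ Fin N) →₀ ℕ))
    (c : κ → (((Fin n ⊕ Fin b) ⊕ Fin N) →₀ ℕ) → Polynomial (MvPolynomial (Fin s) ℤ))
    (h : Fin M → Polynomial (MvPolynomial (Fin s) ℤ)) (hdeg : ∀ l, 0 < (h l).natDegree)
    (e : Fin M → κ → (((Fin n ⊕ Fin b) ⊕ Fin N) →₀ ℕ) → ℕ)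
    (he : ∀ l q, ∀ β ∈ supp q, HasOrd (h l) (c q β) (e l q β)) (hgen : GenericO supp e)
    (Γ : Finset ℂ) (ε : ℝ) (hε : 0 < ε) :
    ∃ C : ℝ, ∀ B : ℕ, 1 ≤ B →
      ({z : ℤ × (Fin s → ℤ) | |z.1| ≤ B ∧ (∀ i, |z.2 i| ≤ B) ∧
        ∃ (x : Fin n → ℂ) (τ : Fin b → ℍ), x ∈ orbit Γ τ ∧ Sum.elim x (fun c => jj (τ c)) ∈
          solO supp (fun q β => ((ev z.1 z.2 (c q β) : ℤ) : ℂ))}.ncard : ℝ) ≤
            C * (B : ℝ) ^ ((s : ℝ) + ε) :=
  manyOrbits supp c h hdeg e he hgen Γ ε hε

end Pool.Agent.Results.MP_7e5527_ag.OrbitsInFamilies
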