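import Pool.Agent.R370.TZ.N

/-!
# Orbits of points which are not defined over the algebraic numbers

Let `k ⊆ K` be the field of the algebraic numbers and the field of complex numbers, let `(M, X_M)` and
`(G, X)` be Shimura data, `Sh_M` a (connected) Shimura variety of `M` and `Sh_G = Γ \ X⁺`. Let `x` be a
Hodge generic point of `X_M`, `m = dim X_M`, and let `b` be the transcendence degree over `k` of the
image of `x` in `Sh_M`.

In the theorem the ambient variety is (the cone over) `Sh_M × Sh_G`, with its special subvarieties
`𝒮`, which are defined over `k`, and `F` is the fibre `{x} × Sh_G`. `smallHull 𝒮 F m` is the set of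
the points `(x, s)` of `F` such that the smallest special subvariety containing `(x, s)` has dimension
at most `m`. It is `{x} × Σ (M, X_M, x)`: let `N`, a subgroup of `M × M_s`, be the Mumford-Tate group
of `(x, s)`. It projects onto `M` and onto `M_s`. If `dim X_N ≤ dim X_M`, then `N^ad → M^ad` is an
isomorphism, and so `N^ad` is the graph of a homomorphism from `M^ad` to `M_s^ad` which sends the image
of `x` to the image of `s`. Conversely, for such a homomorphism `φ` the group `N^ad` is its graph, and
`dim X_N = dim X_M`.

`FibreData k X 𝒮 F b m` lists the properties of `F` which are used. (1) All points `(x, s)` of `F` have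
transcendence degree at least `b`. (2) Those with `s` in `Σ (M, X_M, x)` have transcendence degree `b`,
as the smallest special subvariety containing `(x, s)` is then finite over `Sh_M`. (3) If `S` is
special and meets `F`, then `S → Sh_M` is dominant and its fibres have dimension `dim S - m`.

Let `V`, a subvariety of `F` over `K`, be given, that is, a subvariety of `Sh_G` over `K`. The theorem
says that the Zariski closure of `V ∩ Σ (M, X_M, x)` is the union of its finitely many components `C`,
and for each of them, with `C₀ = clo k X C`, the smallest closed subset over `k` containing `C`: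

* `dim C₀ = dim C + b`, and `C` is an irreducible component of `F ∩ C₀`, the fibre of `C₀` over `x` (so
  `C` is defined over the algebraic closure of `k(x)`);
* the closures over `k` of the points `(x, s)` of `C` with `s` in `Σ (M, X_M, x)`, which are
  subvarieties of dimension `b`, with hulls of dimension `m`, are Zariski dense in `C₀`;
* if the defect (the codimension in the hull) of `C₀` is at most `m - b`, then
  `dim (hull C) = dim C + m`, and `C` is an irreducible component of `F ∩ hull C`, so `C` belongs to
  every collection `𝒲` of subvarieties which contains the special ones and `F`, and which is closed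
  under taking irreducible components of intersections: for Shimura varieties, the collection of the
  weakly special subvarieties. Those contained in `F` are the `{x} × W`, `W` weakly special in `Sh_G`.
* if `b = m`, then (2) and (3) follow from (1), and if `C₀` satisfies the André-Oort conjecture (that
  is, if it is special as soon as the special subvarieties contained in it are dense), then `C₀` is
  special, and its defect is `0 = m - b`.

So Q1 for `x` and all `V` over the complex numbers is reduced to the inequality `defect C₀ ≤ m - b`, a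
case of the Zilber-Pink conjecture for the variety `C₀` over `k` and for its subvarieties of dimension
`b` and defect `m - b`. It is known if `b = m`, by the André-Oort conjecture (Pila, Shankar and
Tsimerman), and more generally if no simple factor (over the rational numbers) of `x^ad` is defined
over `k`, for instance if `M^ad` is simple and `x` is not defined over `k`. (These theorems are not
proved or used here.) Indeed, let `B` be the closure over `k` of the point `(x, s)` of `C`, with `s` in
`Σ (M, X_M, x)`. The smallest weakly special subvariety containing `B` is `hull B`, because its image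
in `Sh_M` is weakly special and contains the closure over `k` of `x`. Let `A` be a weakly optimal subvariety of `C₀`
containing `B`, such that its codimension in its smallest weakly special subvariety `⟨A⟩` is at most
`m - b`. Then `⟨A⟩` contains `hull B`, and so it is special. By Daw and Ren (the geometric part of the
Zilber-Pink conjecture) the `⟨A⟩` are the images of the fibres `X_1 × {y}` for finitely many Shimura
subdata with decompositions `X_1 × X_2`; we may assume that there is only one. Here `y` is special, as
`⟨A⟩` is special. By the André-Oort conjecture the closure `Y` of the image of `C₀` in `X_2` (modulo an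
arithmetic group) is special, and over an open subset of `Y` the fibres of `C₀` have dimension
`dim C₀ - dim Y`. So `dim X_1 - (dim C₀ - dim Y) ≤ m - b`, and `X_1 × Y` contains `C₀`.
-/

namespace Pool.Agent.Results.MP_7e5527_ag.TranscendentalPoints

open Pool.Agent.R948.ZP Pool.Agent.R370.TZ Pool.Agent.R370.HS

/-- Q1 for points `x` over `K` and subvarieties `V` over `K`: the reduction to varieties over `k`, and
the points of maximal transcendence degree. -/
theorem result {k K : Type} [Field k] [Field K] [Algebra k K] [IsAlgClosed k] [IsAlgClosed K]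
    {ι : Type} [Fintype ι] {X : Set (ι → K)} (hX : QuasiProjective X) {𝒮 : Set (Set (ι → K))}
    (h𝒮 : SpecialStructure X 𝒮) (hd : ∀ S ∈ 𝒮, Def k S) {T : Set (ι → K)} (hT : T ∈ 𝒮)
    {F : Set (ι → K)} (hFT : F ⊆ T) {b m : ℤ} :
    (FibreData k X 𝒮 F b m → ∀ V, Subvariety X V → V ⊆ F →
      {C | IsComponent X C (zcl X (V ∩ smallHull 𝒮 F m))}.Finite ∧
      ⋃₀ {C | IsComponent X C (zcl X (V ∩ smallHull 𝒮 F m))} = zcl X (V ∩ smallHull 𝒮 F m) ∧
      ∀ C, IsComponent X C (zcl X (V ∩ smallHull 𝒮 F m)) →
        C ⊆ V ∧ dim (clo k X C) = dim C + b ∧ IsComponent X C (F ∩ clo k X C) ∧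
        Dense X (clo k X C) (⋃₀ {B | ∃ y, y ∈ C ∧ y ∈ smallHull 𝒮 F m ∧ B = clo k X (line y) ∧
          dim B = b ∧ dim (hull 𝒮 B) = m}) ∧
        (defect 𝒮 (clo k X C) ≤ m - b →
          dim (hull 𝒮 C) = dim C + m ∧ IsComponent X C (F ∩ hull 𝒮 C) ∧
          ∀ 𝒲 : Set (Set (ι → K)), 𝒮 ⊆ 𝒲 → F ∈ 𝒲 →
            (∀ A ∈ 𝒲, ∀ B ∈ 𝒲, ∀ D, IsComponent X D (A ∩ B) → D ∈ 𝒲) → C ∈ 𝒲) ∧
        (b = m →
          (Dense X (clo k X C) (⋃₀ {S | S ∈ 𝒮 ∧ S ⊆ clo k X C}) → clo k X C ∈ 𝒮) →
          clo k X C ∈ 𝒮 ∧ defect 𝒮 (clo k X C) = 0)) ∧
    (IsCone F → (∀ y ∈ F, m ≤ dim (clo k X (line y))) → FibreData k X 𝒮 F m m) := by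
  refine ⟨fun hF V hV hVF => ?_, fun hF hFm => fibreData_generic (k := k) hX h𝒮 hd hT hFT hF hFm⟩
  have : Infinite K := IsAlgClosed.instInfinite
  have hTs := h𝒮.subvariety _ hT
  have hPc := smallHull_cone (𝒮 := 𝒮) hF.cone m
  have hM : IsCone (V ∩ smallHull 𝒮 F m) :=
    fun x hx c hc => ⟨hV.closed.1 x hx.1 c hc, hPc x hx.2 c hc⟩
  have hMX : V ∩ smallHull 𝒮 F m ⊆ X := fun x hx => hV.subset hx.1
  have hFc := zcl_closed hX.cone hM hMX
  have hFV : zcl X (V ∩ smallHull 𝒮 F m) ⊆ V := zcl_subset hV.closed Set.inter_subset_left
  refine ⟨components_finite hFc, sUnion_components hX hFc, fun C hC => ?_⟩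
  have hCV := hC.2.1.trans hFV
  have hCF := hCV.trans hVF
  have hCT := hCF.trans hFT
  obtain ⟨h1, h2⟩ := fibreData_gap (k := k) hX h𝒮 hd hT hFT hF hC.1 hCF (by
    intro W hW hWC
    exact component_dense hX hM hMX hC hW fun x hx hxM _ => hWC ⟨hx, hxM.2⟩)
  have h3 : IsComponent X C (F ∩ clo k X C) :=
    fibre_component (k := k) hX hTs (hd T hT) hFT (fun A hA hAF =>
      le_gap_of_points (k := k) hX hTs (hd T hT) hA (hAF.trans hFT)
        fun y hy => hF.degree y (hAF hy)) hC.1 hCF h1
  have hcC := clo_sub (k := k) hX hC.1 hTs (hd T hT) hCT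
  have hcT : clo k X C ⊆ T := clo_subset hTs.closed (hd T hT) (cont_anti hCT)
  refine ⟨hCV, ?_, h3, h2, fun hdef => ?_, ?_⟩
  · rw [gap] at h1
    omega
  · obtain ⟨h4, h5, h6⟩ := fibreData_hull (k := k) hX h𝒮 hd hT hFT hF hC.1 hCF h1 hdef
    exact ⟨h5, h6, fun 𝒲 h𝒲 hF𝒲 hc => hc F hF𝒲 _ (h𝒲 h4) C h6⟩
  · rintro rfl hAO
    have h4 : clo k X C ∈ 𝒮 := by
      refine hAO fun W hW hSW => h2 W hW ?_
      rintro z ⟨hz, B, ⟨y, hyC, hyP, rfl, hB1, hB2⟩, hzB⟩
      have hlC : line y ⊆ C := line_subset hC.1.closed.1 hyC
      have hl := line_sub hX.cone hX.zero (hC.1.subset hyC)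
      have hBC : clo k X (line y) ⊆ clo k X C :=
        clo_subset hcC.closed (def_clo (k := k) hX hC.1 hTs (hd T hT) hCT)
          (cont_anti (hlC.trans (subset_clo hC.1.subset)))
      have h5 : clo k X (line y) ∈ 𝒮 :=
        special_of_defect hX h𝒮 (clo_sub (k := k) hX hl hTs (hd T hT) (hlC.trans hCT)) hT
          (hBC.trans hcT) (by rw [defect, hB1, hB2, sub_self])
      exact hSW ⟨hz, _, ⟨h5, hBC⟩, hzB⟩
    refine ⟨h4, ?_⟩
    rw [defect, Set.Subset.antisymm (hull_subset h4 le_rfl) (subset_hull _), sub_self]

end Pool.Agent.Results.MP_7e5527_ag.TranscendentalPoints
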